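import Pool.Agent.X127.HY.Lim
import Pool.Agent.Results.MP_a54f13_nt.LimitLaws

/-!
# Sign balance of Maass forms (MP_a54f13_nt)

`HH` is the open upper half plane, `mu Ω` the hyperbolic area `dx dy / y²` on `Ω`, `vol Ω` its total
mass, `IsWeakLimit` the weak convergence of the laws along a subsequence: these are the definitions
of the file `LimitLaws` of this problem. `lapl f = ∂x² f + ∂y² f` is the definition of the file
`AbsoluteContinuity` of MP_a52643_an.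
-/

set_option autoImplicit false
open MeasureTheory Filter Topology
open scoped ContDiff ENNReal

namespace Pool.Agent.Results.MP_a54f13_nt.SignBalance

noncomputable section

open Pool.Agent.Results.MP_a52643_an.AbsoluteContinuity (lapl)
open Pool.Agent.Results.MP_a54f13_nt.LimitLaws (HH mu vol IsWeakLimit)
open Pool.Agent.X127.HY (hm kd kd_meas)

/-- the points `z` of the upper half plane whose closed Euclidean disc of radius `4 Im z / t` lies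
in `Ω`; this is a disc of hyperbolic radius about `4 / t` -/
def interiorPart (Ω : Set ℂ) (t : ℝ) : Set ℂ :=
  {z | 0 < z.im ∧ Metric.closedBall z (4 * z.im / t) ⊆ Ω}

lemma refl_conv {Φ : ℝ → ℝ} (h : ConvexOn ℝ Set.univ Φ) :
    ConvexOn ℝ Set.univ fun x => Φ (-x) := by
  refine ⟨convex_univ, fun x _ y _ p q hp hq hpq => ?_⟩
  have := h.2 (Set.mem_univ (-x)) (Set.mem_univ (-y)) hp hq hpq
  simp only [smul_eq_mul] at this ⊢
  rw [show -(p * x + q * y) = p * -x + q * -y by ring]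
  exact this

lemma mu_eq {Ω : Set ℂ} (hΩ : IsOpen Ω) : mu Ω = hm.restrict Ω := by
  unfold mu hm
  rw [restrict_withDensity hΩ.measurableSet]
  rfl

/-- **Sign balance of Maass forms.** (1) For every `c < 2/5` there is `t₀` such that for all
`t ≥ t₀`, all open subsets `Ω` of the upper half plane, all solutions of
`-y²(∂x² + ∂y²) f = (1/4 + t²) f` in `Ω` and all convex `Φ ≥ 0`, the integral of `Φ(±c f)` over the
interior part of `Ω` is at most the integral of `Φ(∓f)` over `Ω`. (2) Every weak limit `ν` of the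
laws of such functions on a set of finite area, as `t → ∞`, with bounded mean square, satisfies
`∫ Φ(±(2/5) x) dν ≤ ∫ Φ(∓x) dν`. -/
theorem result :
    (∀ c : ℝ, 0 ≤ c → c < 2 / 5 → ∃ t0 : ℝ, 0 < t0 ∧ ∀ t ≥ t0,
      ∀ (Ω : Set ℂ) (f : ℂ → ℝ), IsOpen Ω → Ω ⊆ HH → ContDiffOn ℝ ∞ f Ω →
      (∀ z ∈ Ω, -(z.im ^ 2 * lapl f z) = (1 / 4 + t ^ 2) * f z) →
      ∀ Φ : ℝ → ℝ, ConvexOn ℝ Set.univ Φ → (∀ x, 0 ≤ Φ x) →
        ∫⁻ z in interiorPart Ω t, ENNReal.ofReal (Φ (c * f z)) ∂(mu Ω) ≤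
            ∫⁻ z, ENNReal.ofReal (Φ (-f z)) ∂(mu Ω) ∧
        ∫⁻ z in interiorPart Ω t, ENNReal.ofReal (Φ (-(c * f z))) ∂(mu Ω) ≤
            ∫⁻ z, ENNReal.ofReal (Φ (f z)) ∂(mu Ω)) ∧
    ∀ (M : ℝ) (Ω : Set ℂ) (t : ℕ → ℝ) (f : ℕ → ℂ → ℝ), 0 < M → IsOpen Ω → Ω.Nonempty →
      Ω ⊆ HH → mu Ω Set.univ ≠ ⊤ → Tendsto t atTop atTop → (∀ n, ContDiffOn ℝ ∞ (f n) Ω) →
      (∀ n, ∀ z ∈ Ω, -(z.im ^ 2 * lapl (f n) z) = (1 / 4 + t n ^ 2) * f n z) →
      (∀ᶠ n in atTop, Integrable (fun z => f n z ^ 2) (mu Ω) ∧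
        ∫ z, f n z ^ 2 ∂(mu Ω) ≤ M * vol Ω) →
      ∀ ν : Measure ℝ, IsProbabilityMeasure ν → IsWeakLimit Ω f ν →
      ∀ Φ : ℝ → ℝ, ConvexOn ℝ Set.univ Φ → (∀ x, 0 ≤ Φ x) →
        ∫⁻ x, ENNReal.ofReal (Φ (2 / 5 * x)) ∂ν ≤ ∫⁻ x, ENNReal.ofReal (Φ (-x)) ∂ν ∧
        ∫⁻ x, ENNReal.ofReal (Φ (-(2 / 5 * x))) ∂ν ≤ ∫⁻ x, ENNReal.ofReal (Φ x) ∂ν := by
  refine ⟨fun c c0 c1 => ?_, fun M Ω t f M0 hΩ hne hH hfin ht sf he hev ν hν hw Φ cΦ Φ0 => ?_⟩
  · obtain ⟨t0, ht0, h⟩ := Pool.Agent.X127.HY.exactH c0 c1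
    refine ⟨t0, ht0, fun t ht Ω f hΩ hH sf he Φ cΦ Φ0 => ?_⟩
    have tp : 0 < t := ht0.trans_le ht
    have mK : MeasurableSet (interiorPart Ω t) :=
      (Pool.Agent.X127.HY.inn_open hΩ tp).measurableSet
    have KΩ : interiorPart Ω t ⊆ Ω := fun z hz => hz.2 (Metric.mem_closedBall_self (by
      have := hz.1
      positivity))
    rw [mu_eq hΩ, Measure.restrict_restrict mK, Set.inter_eq_left.2 KΩ]
    refine ⟨h t ht Ω f hΩ hH sf he Φ cΦ Φ0, ?_⟩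
    have h2 := h t ht Ω f hΩ hH sf he _ (refl_conv cΦ) fun x => Φ0 _
    simp only [neg_neg] at h2
    exact h2
  · obtain ⟨σ, hσ, hg⟩ := hw
    have hfin' : hm Ω ≠ ⊤ := by
      rw [mu_eq hΩ, Measure.restrict_apply_univ] at hfin
      exact hfin
    have hv : vol Ω = (hm Ω).toReal := by
      unfold vol
      rw [mu_eq hΩ, Measure.restrict_apply_univ]
    rw [hv] at hev hg
    simp only [mu_eq hΩ] at hev hg
    have main : ∀ Φ : ℝ → ℝ, ConvexOn ℝ Set.univ Φ → (∀ x, 0 ≤ Φ x) →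
        ∫⁻ x, ENNReal.ofReal (Φ (2 / 5 * x)) ∂ν ≤ ∫⁻ x, ENNReal.ofReal (Φ (-x)) ∂ν :=
      fun Φ cΦ Φ0 => Pool.Agent.X127.HY.limH (t := fun n => t (σ n)) (f := fun n => f (σ n))
        (M := M) hΩ hne hH hfin' M0.le (ht.comp hσ.tendsto_atTop) (fun n => sf _)
        (fun n => he _) (hσ.tendsto_atTop.eventually hev) hg cΦ Φ0
    refine ⟨main Φ cΦ Φ0, ?_⟩
    have h := main _ (refl_conv cΦ) fun x => Φ0 _
    simp only [neg_neg] at h
    exact h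

end

end Pool.Agent.Results.MP_a54f13_nt.SignBalance
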